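import Pool.Agent.helper19.FK.Fin0
import Pool.Agent.helper19.FK.LOS
import Pool.Agent.helper19.FK.CLG
import Pool.Agent.helper19.SK.MAIN
import Pool.Agent.helper19.HF.Fin1
import Pool.Agent.helper38.AT.All
import Pool.Agent.helper9.IT.ORB
import Pool.Agent.helper49.IT.ADO
import Pool.Agent.helper24.IT.PRI
import Pool.Agent.helper76.FE.All
import Pool.Agent.helper72.FE.Cor

/-!
# The iterates of EVERY case of Q1: one of four explicit ones is true for more than half of all constants, and one of boundedly many for all but the proportion `ε`, in every long interval of every class near its own constant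

`c` is called true for `(a, b)` if `(a, b, c)` satisfies the conditions of Q1 (`Admissible`) and `a p - b q = c` has infinitely many solutions in primes `p, q` (`TrueCase`). Let `T(x) = (b x + c)/a`; Q1 says that `T` maps infinitely many primes to primes.
The iterate `T^m` is the equation `a^m p - b^m q = c_m`, `c_m = (a^(m-1) + a^(m-2) b + ... + b^(m-1)) c`. `GoodIt η a b c m` (`T^m` is `η`-good): there is `D ≥ 1` such that for every multiple `q ≥ 1` of `D` every long progression of step `q` which starts in the class of `c_m` modulo `D` contains at least the proportion `η` of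
numbers which are true for `(a^m, b^m)`. Nothing is assumed.

THEOREM. (1) For every share `θ < 1` there is an ABSOLUTE `K(θ)` such that for EVERY case `(a, b, c)` of Q1 some iterate `T^m`, `m ≤ K(θ)`, is `θ`-good, if `a ≠ b` or `θ ≤ 1/2 + 3/10^6`; for `θ ≤ 1/2 + 3/10^6` one of `T`, `T^2`, `T^3` (or `T^4`, only needed if `3 ∣ a - b` and `3 ∤ a b c`) is `θ`-good.
(2) For EVERY case `T` there is `n₀(T)` such that for every multiple `n` of `n₀(T)` at least `(1/2 + 3/10^6) M` of any `M ≥ M₀(T, n)` consecutive multiples `m` of `n` have `T^m` ITSELF true (`a = b = 1`: `p - q = m c` for infinitely many pairs of primes).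
(3) For all `θ < 1` and `r` there is an ABSOLUTE `K` such that ANY `r` cases with `a_i ≠ b_i` have a COMMON `m ≤ K` with all `T_i^m` `θ`-good.
(4) Every infinite set of integers contains an infinite set `H` such that for EVERY case with `a ≠ b` and EVERY `θ < 1` all `T^(t - s)`, `t > s > M(a, b, c, θ)` in `H`, are `θ`-good.
(5) General form of (1) for `θ = 1/2 + 3/10^6`: for every `k ≥ 1` there is `η_k > 0`, `η_4 = 1/2 + 3/10^6`, such that of ANY `k` linear forms `s_i n + h_i`, `s_i ≥ 1`, without fixed prime divisor more than `k/4` have pairwise (`i ≠ j`) `GoodIt η_k a b (a h_i - b h_j) 1` for the coprime `a, b` with `a s_i = b s_j`.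

The input of the PROOF is the theorem on almost all tuples of linear forms (a sieve of Maynard and Tao for clusters of forms, `Pool/Agent/helper38/AT`): more than `α = 1/4 + 1/500000` of the forms of almost every tuple in a product of large sets of forms are prime
simultaneously for infinitely many `n` (a clique); two of them always give a true `c`.
PROOF of (5) for `k = 4`, and so of (1) for `θ = 1/2 + 3/10^6` (`Pool/Agent/helper19/FK`; (5) for other `k`: `Pool/Agent/helper19/SK`). Suppose that all pairs of the four forms (for (1): `T^(e_i) n` over a common denominator) are BAD with `θ = 1/2 + 3/10^6`. Take a tree of far translates of the configuration; every form is replaced by a long progression of forms (a block); for every level and pair choose the modulus such that the lower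
densities are almost extremal: the windows have density `≤ γ + ε`, `γ ≤ θ`, and ALL progressions of finer steps in the class have density `≥ γ - ε`. Pinning (increment of energy, Bessel's inequality) gives functions on the blocks, of means `M(π, i)` with `∑ M ≥ (1 + 8/10^6 - ε) 17^T`, such that almost all pairs of points of two blocks give a true `c`.
For facing blocks the popular values of `a u - b v` have an almost period `p q` with a large prime `p` and bounded `q` (the method of Croot and Sisask), and by POLLARD's theorem modulo `p` their density is at least the sum of the two means: `M(π, i) + M(π', j) ≤ γ + e` if both are `≥ e`. The recursion on the levels with the MAXIMA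
of the means over the clusters gives numbers `x_i` with `x_i + x_j ≤ θ + e` for all pairs `x_i, x_j ≥ e` and `∑ x_i ≥ 1 + 8/10^6 - ε`, but `∑ x_i ≤ max (2 (θ + e), 1 + 3 e)`: contradiction.
PROOF of (2) (`Pool/Agent/helper19/HF`): the same method for the exponents in the place of the constants. PROOF of (1) for `θ > 1/2 + 3/10^6` and of (3), (4) (`Pool/Agent/helper19/FE/Spec.lean`, `Pool/Agent/helper76/FE/Spec.lean`). Let `N` bad `k`-tuples of exponents be given, without common differences. For every tuple take a tree of far translates of the forms `a'^(M-y) b'^y n + h(n₀ y)`, `a' = a^n₀`, `b' = b^n₀`, `h` an orbit of `T`, such that the `c` belonging to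
the pairs which face each other at a level lie at places where the false `c` have local density at least `ε/2`. All tuples are realised by permutations of ONE set of forms, whose number depends only on `ε` and `k`; so the number `k'` of the forms to which the sieve is applied does not depend on the case or on the exponents.
If `n₀` is divisible by `p (p - 1)` for all `p ≤ k'` then `T^n₀` is the identity modulo these primes, so the forms are admissible. The cliques give functions with average more than `1/4` and almost no false pairs; in every tree some pair has mean values bounded from below (star lemma), so it correlates with the local density minus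
the indicator function of the false `c`. These differences are almost orthogonal for different tuples, and the functions span boundedly many dimensions up to a small error: by Bessel's inequality `N ≤ C/ε^4`. So outside a set `E` of at most `C/ε^4` differences of ANY `k` exponents more than `k/4` have pairwise good differences. Take `k = 4`; a greedy choice of exponents; Ramsey's theorem; an ultrafilter.
-/

set_option autoImplicit false

namespace Pool.Agent.Results.MP_bf63dc_nt.EveryCase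

open Finset

/-- The conditions of Q1: `a, b ≥ 1`, `c ≠ 0`, pairwise relatively prime, not all odd. -/
def Admissible (a b : ℕ) (c : ℤ) : Prop :=
  0 < a ∧ 0 < b ∧ c ≠ 0 ∧ Nat.Coprime a b ∧ IsCoprime (a : ℤ) c ∧ IsCoprime (b : ℤ) c ∧
    ¬ (Odd a ∧ Odd b ∧ Odd c)

/-- `c` is true for `(a, b)`: the conditions of Q1 hold and `a p - b q = c` has infinitely many solutions in primes `p, q`. -/
def TrueCase (a b : ℕ) (c : ℤ) : Prop :=
  Admissible a b c ∧ {pq : ℕ × ℕ | pq.1.Prime ∧ pq.2.Prime ∧ (a : ℤ) * pq.1 - b * pq.2 = c}.Infinite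

/-- `b^(m-1) + a b^(m-2) + ... + a^(m-1)` -/
def geo (a b m : ℕ) : ℕ := ∑ i ∈ range m, a ^ i * b ^ (m - 1 - i)

/-- The iterate `T^m` of `T(x) = (b x + c)/a` is `η`-good: there is `D ≥ 1` such that for every multiple `q ≥ 1` of `D` there is `M₀` such that for all `M ≥ M₀` and all `y` congruent modulo `D` to the constant
`c (a^(m-1) + ... + b^(m-1))` of `T^m` at least `η M` of the numbers `y, y + q, ..., y + (M - 1) q` are true for `(a^m, b^m)`. -/
def GoodIt (η : ℝ) (a b : ℕ) (c : ℤ) (m : ℕ) : Prop :=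
  ∃ D : ℕ, 1 ≤ D ∧ ∀ q : ℕ, 1 ≤ q → D ∣ q → ∃ M₀ : ℕ, ∀ M : ℕ, M₀ ≤ M → ∀ y : ℤ, (D : ℤ) ∣ y - c * geo a b m →
    η * M ≤ ({t : ℕ | t < M ∧ TrueCase (a ^ m) (b ^ m) (y + q * t)}.ncard : ℝ)

theorem hT : Pool.Agent.helper85.FC.TrueCase = TrueCase := by
  funext a b c
  unfold Pool.Agent.helper85.FC.TrueCase TrueCase Admissible
  simp only [and_assoc]

theorem hA : Pool.Agent.IT.Ad = Admissible := rfl

theorem hGη (η : ℝ) (a b : ℕ) (c : ℤ) (m : ℕ) : Pool.Agent.SK.Dens η (a ^ m) (b ^ m) (c * (Pool.Agent.IT.br a b m : ℕ)) = GoodIt η a b c m := by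
  classical
  unfold Pool.Agent.SK.Dens GoodIt
  have h1 : ∀ (q M : ℕ) (y : ℤ), ((Pool.Agent.HF.cz (Pool.Agent.HF.TC (a ^ m) (b ^ m)) y q M : ℕ) : ℝ) = ({t : ℕ | t < M ∧ TrueCase (a ^ m) (b ^ m) (y + q * t)}.ncard : ℝ) := by
    intro q M y
    unfold Pool.Agent.HF.cz
    have e2 : {t : ℕ | t < M ∧ TrueCase (a ^ m) (b ^ m) (y + q * t)} = ((range M).filter (fun t : ℕ => Pool.Agent.HF.TC (a ^ m) (b ^ m) (y + q * (t : ℕ))) : Finset ℕ) := by
      ext t
      simp only [Set.mem_ofPred_eq, coe_filter, mem_range]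
      unfold Pool.Agent.HF.TC
      rw [hT]
    rw [e2, Set.ncard_coe_finset]
  simp only [h1]
  rfl

theorem hG : Pool.Agent.FE.GoodT = fun ε => GoodIt (1 - ε) := by
  funext ε a b c m
  exact hGη (1 - ε) a b c m

/-- two indices of the orbit -/
theorem orbit (η : ℝ) (hη : ∀ F : Fin 4 → ℕ × ℤ, (∀ i, 0 < (F i).1) → Pool.Agent.AT.Adm F →
    ∃ I : Finset (Fin 4), ((4 : ℕ) : ℝ) / 4 < I.card ∧ ∀ i ∈ I, ∀ j ∈ I, i ≠ j →
      Pool.Agent.SK.Dens η ((F j).1 / Nat.gcd (F i).1 (F j).1) ((F i).1 / Nat.gcd (F i).1 (F j).1)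
        ((((F j).1 / Nat.gcd (F i).1 (F j).1 : ℕ) : ℤ) * (F i).2 - (((F i).1 / Nat.gcd (F i).1 (F j).1 : ℕ) : ℤ) * (F j).2))
    (a b : ℕ) (c : ℤ) (hc : Admissible a b c) (e : Fin 4 → ℕ) (E : ℕ) (he : StrictMono e) (heE : ∀ i, e i ≤ E)
    (h3 : (3 : ℤ) ∣ a * b * c ∨ ¬ (3 : ℤ) ∣ (a : ℤ) - b ∨ ∃ r : ℤ, ∀ i, ¬ (3 : ℤ) ∣ (e i : ℤ) - r) :
    ∃ i j : Fin 4, i < j ∧ GoodIt η a b c (e j - e i) := by
  have ha : 0 < a := hc.1
  have hb : 0 < b := hc.2.1
  have hab : Nat.Coprime a b := hc.2.2.2.1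
  obtain ⟨h, hh⟩ := Pool.Agent.IT.ORB a b E c ha hb hab
  have hadm := Pool.Agent.IT.ADO a b E c e h hc hh heE h3
  obtain ⟨I, hI, hI2⟩ := hη (fun i => (a ^ (E - e i) * b ^ (e i), h (e i))) (fun i => by positivity) hadm
  have hI1 : 1 < I.card := by
    norm_num at hI
    exact hI
  obtain ⟨x, hx, y, hy, hxy⟩ := one_lt_card.1 hI1
  have key : ∀ i ∈ I, ∀ j ∈ I, i < j → ∃ i j : Fin 4, i < j ∧ GoodIt η a b c (e j - e i) := by
    intro i hi j hj hij
    refine ⟨i, j, hij, ?_⟩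
    have h1 := hI2 j hj i hi hij.ne'
    dsimp only at h1
    obtain ⟨m, hm⟩ : ∃ m, e j = e i + m := ⟨e j - e i, by have := he hij; omega⟩
    have hm2 : e j - e i = m := by omega
    have hE : e i + m ≤ E := by rw [← hm]; exact heE j
    rw [hm2]
    rw [hm] at h1
    obtain ⟨G, hG⟩ : ∃ G : ℕ, G = a ^ (E - (e i + m)) * b ^ (e i) := ⟨_, rfl⟩
    have hG1 : 0 < G := by rw [hG]; positivity
    have hf : a ^ (E - (e i + m)) * b ^ (e i + m) = G * b ^ m := by rw [hG, pow_add]; ring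
    have hg : a ^ (E - e i) * b ^ (e i) = G * a ^ m := by
      have hEe : E - e i = (E - (e i + m)) + m := by omega
      rw [hG, hEe, pow_add]
      ring
    rw [hf, hg] at h1
    have hgcd : Nat.gcd (G * b ^ m) (G * a ^ m) = G := by
      rw [Nat.gcd_mul_left]
      have : Nat.gcd (b ^ m) (a ^ m) = 1 := Nat.Coprime.pow _ _ hab.symm
      rw [this, mul_one]
    rw [hgcd, Nat.mul_div_cancel_left _ hG1, Nat.mul_div_cancel_left _ hG1] at h1
    have h2 := Pool.Agent.IT.PRI_orbit a b E c h hh (e i) m hE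
    have e1 : ((a ^ m : ℕ) : ℤ) * h (e i + m) - ((b ^ m : ℕ) : ℤ) * h (e i) = c * (Pool.Agent.IT.br a b m : ℕ) := by
      push_cast
      push_cast at h2
      linarith
    rw [e1] at h1
    rw [← hGη]
    exact h1
  rcases lt_or_gt_of_ne hxy with h4 | h4
  · exact key x hx y hy h4
  · exact key y hy x hx h4

/-- the four exponents `0, 1, 2, 3` -/
theorem mono1 : StrictMono (![0, 1, 2, 3] : Fin 4 → ℕ) := by
  intro i j hij
  fin_cases i <;> fin_cases j <;> simp_all

/-- the four exponents `0, 1, 3, 4` -/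
theorem mono2 : StrictMono (![0, 1, 3, 4] : Fin 4 → ℕ) := by
  intro i j hij
  fin_cases i <;> fin_cases j <;> simp_all

theorem dif1 : ∀ i j : Fin 4, i < j → (![0, 1, 2, 3] : Fin 4 → ℕ) j - (![0, 1, 2, 3] : Fin 4 → ℕ) i = 1 ∨
    (![0, 1, 2, 3] : Fin 4 → ℕ) j - (![0, 1, 2, 3] : Fin 4 → ℕ) i = 2 ∨ (![0, 1, 2, 3] : Fin 4 → ℕ) j - (![0, 1, 2, 3] : Fin 4 → ℕ) i = 3 := by
  decide

theorem dif2 : ∀ i j : Fin 4, i < j → (![0, 1, 3, 4] : Fin 4 → ℕ) j - (![0, 1, 3, 4] : Fin 4 → ℕ) i = 1 ∨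
    (![0, 1, 3, 4] : Fin 4 → ℕ) j - (![0, 1, 3, 4] : Fin 4 → ℕ) i = 2 ∨ (![0, 1, 3, 4] : Fin 4 → ℕ) j - (![0, 1, 3, 4] : Fin 4 → ℕ) i = 3 ∨
    (![0, 1, 3, 4] : Fin 4 → ℕ) j - (![0, 1, 3, 4] : Fin 4 → ℕ) i = 4 := by
  decide

theorem good_one (η : ℝ) (a b : ℕ) (c : ℤ) (h : Pool.Agent.SK.Dens η a b c) : GoodIt η a b c 1 := by
  rw [← hGη, pow_one, pow_one]
  have e : (c * (Pool.Agent.IT.br a b 1 : ℕ) : ℤ) = c := by simp [Pool.Agent.IT.br]
  rw [e]
  exact h

/-- monotonicity in the share -/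
theorem mono_it {θ θ' : ℝ} (h : θ' ≤ θ) {a b : ℕ} {c : ℤ} {m : ℕ} (hG : GoodIt θ a b c m) : GoodIt θ' a b c m := by
  obtain ⟨D, h1, h2⟩ := hG
  refine ⟨D, h1, fun q hq hDq => ?_⟩
  obtain ⟨M₀, h3⟩ := h2 q hq hDq
  exact ⟨M₀, fun M hM y hy => (mul_le_mul_of_nonneg_right h (Nat.cast_nonneg M)).trans (h3 M hM y hy)⟩

/-- one of the first four iterates -/
theorem four (a b : ℕ) (c : ℤ) (hc : Admissible a b c) : ∃ m : ℕ, 1 ≤ m ∧ m ≤ 4 ∧ (m = 4 → ((3 : ℤ) ∣ (a : ℤ) - b ∧ ¬ (3 : ℤ) ∣ a * b * c)) ∧ GoodIt (1 / 2 + 3 / 10 ^ 6) a b c m := by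
  obtain ⟨η, hη⟩ : ∃ η : ℝ, η = 1 / 2 + 3 / 10 ^ 6 := ⟨_, rfl⟩
  have h1 := Pool.Agent.FK.four_forms Pool.Agent.FK.CLG Pool.Agent.FK.LOS
  rw [← hη] at h1 ⊢
  by_cases h3 : (3 : ℤ) ∣ (a : ℤ) - b ∧ ¬ (3 : ℤ) ∣ a * b * c
  · obtain ⟨i, j, hij, h4⟩ := orbit η h1 a b c hc ![0, 1, 3, 4] 4 mono2 (by intro i; fin_cases i <;> simp) (Or.inr (Or.inr ⟨2, by
      intro i
      fin_cases i <;> norm_num⟩))
    have hm1 := dif2 i j hij
    exact ⟨_, by omega, by omega, fun _ => h3, h4⟩
  · obtain ⟨i, j, hij, h4⟩ := orbit η h1 a b c hc ![0, 1, 2, 3] 3 mono1 (by intro i; fin_cases i <;> simp) (by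
      by_cases h5 : (3 : ℤ) ∣ a * b * c
      · exact Or.inl h5
      · exact Or.inr (Or.inl fun h6 => h3 ⟨h6, h5⟩))
    have hm1 := dif1 i j hij
    exact ⟨_, by omega, by omega, fun h => by omega, h4⟩

/-- **The iterates of every case of Q1: for every share `θ < 1` one of boundedly many is true for the share `θ` of all constants in every long interval of every class near its own constant.** -/
theorem result :
    -- (1) an absolute bound for the exponent, for every share `θ`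
    (∃ K : ℝ → ℕ, (∀ θ : ℝ, θ ≤ 1 / 2 + 3 / 10 ^ 6 → K θ = 4) ∧ ∀ θ : ℝ, θ < 1 → ∀ (a b : ℕ) (c : ℤ), Admissible a b c → (a ≠ b ∨ θ ≤ 1 / 2 + 3 / 10 ^ 6) →
      ∃ m : ℕ, 1 ≤ m ∧ m ≤ K θ ∧ (θ ≤ 1 / 2 + 3 / 10 ^ 6 → m = 4 → ((3 : ℤ) ∣ (a : ℤ) - b ∧ ¬ (3 : ℤ) ∣ a * b * c)) ∧ GoodIt θ a b c m) ∧
    -- (2) more than half of the multiples of every multiple `n` of some `n₀` are exponents `m` with `T^m` itself true
    (∀ (a b : ℕ) (c : ℤ), Admissible a b c → ∃ n₀ : ℕ, 1 ≤ n₀ ∧ ∀ n : ℕ, 1 ≤ n → n₀ ∣ n → ∃ M₀ : ℕ, ∀ M : ℕ, M₀ ≤ M → ∀ u : ℕ,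
      (1 / 2 + 3 / 10 ^ 6 : ℝ) * M ≤ ({k : ℕ | (u < k ∧ k ≤ u + M) ∧ TrueCase (a ^ (n * k)) (b ^ (n * k)) (c * geo a b (n * k))}.ncard : ℝ)) ∧
    -- (3) a common exponent for any `r` cases, with an absolute bound
    (∀ θ : ℝ, θ < 1 → ∀ r : ℕ, ∃ K : ℕ, 1 ≤ K ∧ ∀ (a b : Fin r → ℕ) (c : Fin r → ℤ), (∀ i, Admissible (a i) (b i) (c i)) → (∀ i, a i ≠ b i) →
      ∃ m : ℕ, 1 ≤ m ∧ m ≤ K ∧ ∀ i, GoodIt θ (a i) (b i) (c i) m) ∧
    -- (4) one infinite set for all cases and all `θ`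
    (∀ S : Set ℕ, S.Infinite → ∃ H : Set ℕ, H ⊆ S ∧ H.Infinite ∧ ∀ (a b : ℕ) (c : ℤ), Admissible a b c → a ≠ b → ∀ θ : ℝ, θ < 1 →
      ∃ M : ℕ, ∀ s ∈ H, ∀ t ∈ H, M < s → s < t → GoodIt θ a b c (t - s)) ∧
    -- (5) the general form of (1) for arbitrary linear forms
    ∃ η : ℕ → ℝ, (∀ k, 0 < η k) ∧ η 4 = 1 / 2 + 3 / 10 ^ 6 ∧ ∀ k : ℕ, 1 ≤ k → ∀ (s : Fin k → ℕ) (h : Fin k → ℤ), (∀ i, 0 < s i) →
      (∀ p : ℕ, p.Prime → ∃ n : ℕ, ∀ i, ¬ (p : ℤ) ∣ s i * n + h i) →
        ∃ I : Finset (Fin k), k < 4 * #I ∧ ∀ i ∈ I, ∀ j ∈ I, i ≠ j → ∀ a b : ℕ, Nat.Coprime a b → a * s i = b * s j →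
          GoodIt (η k) a b (a * h i - b * h j) 1 := by
  classical
  have hFOR := Pool.Agent.FE.FOR Pool.Agent.FE.fec
  have h2 := Pool.Agent.FE.COR2 hFOR
  have h3 := Pool.Agent.FE.COR3 hFOR
  rw [hA, hG] at h2 h3
  beta_reduce at h2 h3
  refine ⟨?_, ?_, ?_, ?_, ?_⟩
  · have h4 : ∀ θ : ℝ, ∃ K : ℕ, θ < 1 → ∀ (a b : ℕ) (c : ℤ), Admissible a b c → a ≠ b → ∃ m : ℕ, 1 ≤ m ∧ m ≤ K ∧ GoodIt θ a b c m := by
      intro θ
      by_cases hθ : θ < 1
      · obtain ⟨K, -, hK⟩ := h2 (1 - θ) (by linarith) 1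
        refine ⟨K, fun _ a b c hc hab => ?_⟩
        obtain ⟨m, hm1, hm2, hm⟩ := hK (fun _ => a) (fun _ => b) (fun _ => c) (fun _ => hc) (fun _ => hab)
        have h5 := hm 0
        rw [sub_sub_cancel] at h5
        exact ⟨m, hm1, hm2, h5⟩
      · exact ⟨0, fun h => absurd h hθ⟩
    choose K hK using h4
    refine ⟨fun θ => if θ ≤ 1 / 2 + 3 / 10 ^ 6 then 4 else K θ, fun θ hθ => if_pos hθ, fun θ hθ1 a b c hc hor => ?_⟩
    by_cases hθ : θ ≤ 1 / 2 + 3 / 10 ^ 6
    · obtain ⟨m, hm1, hm4, hm3, hm⟩ := four a b c hc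
      refine ⟨m, hm1, ?_, fun _ => hm3, mono_it hθ hm⟩
      show m ≤ if θ ≤ 1 / 2 + 3 / 10 ^ 6 then 4 else K θ
      rw [if_pos hθ]
      exact hm4
    · obtain ⟨m, hm1, hm2, hm⟩ := hK θ hθ1 a b c hc (hor.resolve_right hθ)
      refine ⟨m, hm1, ?_, fun h => absurd h hθ, hm⟩
      show m ≤ if θ ≤ 1 / 2 + 3 / 10 ^ 6 then 4 else K θ
      rw [if_neg hθ]
      exact hm2
  · intro a b c hc
    obtain ⟨n₀, hn₀, h⟩ := Pool.Agent.HF.goo_mult a b c hc
    refine ⟨n₀, hn₀, fun n hn hnn => ?_⟩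
    obtain ⟨M₀, h4, -, -⟩ := h n hn hnn
    unfold Pool.Agent.IT.It at h4
    rw [hT] at h4
    exact ⟨M₀, h4⟩
  · intro θ hθ r
    obtain ⟨K, hK1, hK⟩ := h2 (1 - θ) (by linarith) r
    refine ⟨K, hK1, fun a b c hc hab => ?_⟩
    obtain ⟨m, hm1, hm2, hm⟩ := hK a b c hc hab
    refine ⟨m, hm1, hm2, fun i => ?_⟩
    have h5 := hm i
    rw [sub_sub_cancel] at h5
    exact h5
  · intro S hS
    obtain ⟨H, hHS, hH, h⟩ := h3 S hS
    refine ⟨H, hHS, hH, fun a b c hc hab θ hθ => ?_⟩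
    obtain ⟨M, hM⟩ := h a b c hc hab (1 - θ) (by linarith)
    refine ⟨M, fun s hs t ht h1 h2 => ?_⟩
    have h5 := hM s hs t ht h1 h2
    rw [sub_sub_cancel] at h5
    exact h5
  · have hk : ∀ k : ℕ, ∃ η : ℝ, 0 < η ∧ (k = 4 → η = 1 / 2 + 3 / 10 ^ 6) ∧ (1 ≤ k → ∀ F : Fin k → ℕ × ℤ, (∀ i, 0 < (F i).1) → Pool.Agent.AT.Adm F →
        ∃ I : Finset (Fin k), (k : ℝ) / 4 < I.card ∧ ∀ i ∈ I, ∀ j ∈ I, i ≠ j →
          Pool.Agent.SK.Dens η ((F j).1 / Nat.gcd (F i).1 (F j).1) ((F i).1 / Nat.gcd (F i).1 (F j).1)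
            ((((F j).1 / Nat.gcd (F i).1 (F j).1 : ℕ) : ℤ) * (F i).2 - (((F i).1 / Nat.gcd (F i).1 (F j).1 : ℕ) : ℤ) * (F j).2)) := by
      intro k
      by_cases hk4 : k = 4
      · subst hk4
        refine ⟨1 / 2 + 3 / 10 ^ 6, by norm_num, fun _ => rfl, fun _ => Pool.Agent.FK.four_forms Pool.Agent.FK.CLG Pool.Agent.FK.LOS⟩
      · by_cases hk1 : 1 ≤ k
        · obtain ⟨η, hη, h1⟩ := Pool.Agent.SK.MAIN Pool.Agent.AT.Q_all k hk1
          exact ⟨η, hη, fun h => absurd h hk4, fun _ => h1⟩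
        · exact ⟨1, one_pos, fun h => absurd h hk4, fun h => absurd h hk1⟩
    choose η hη hη4 hmain using hk
    refine ⟨η, hη, hη4 4 rfl, fun k hk s h hs hadm => ?_⟩
    obtain ⟨I, hI, h2⟩ := hmain k hk (fun i => (s i, h i)) hs hadm
    refine ⟨I, by
      rw [div_lt_iff₀ (by norm_num)] at hI
      have hI' : (k : ℝ) < ((4 * I.card : ℕ) : ℝ) := by push_cast; linarith
      exact_mod_cast hI', fun i hi j hj hij a b hab hsab => ?_⟩
    have h3 := h2 i hi j hj hij
    dsimp only at h3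
    obtain ⟨d, hd⟩ : ∃ d : ℕ, d = Nat.gcd (s i) (s j) := ⟨_, rfl⟩
    have hd0 : 0 < d := by rw [hd]; exact Nat.gcd_pos_of_pos_left _ (hs i)
    obtain ⟨x, hx⟩ : d ∣ s i := by rw [hd]; exact Nat.gcd_dvd_left _ _
    obtain ⟨y, hy⟩ : d ∣ s j := by rw [hd]; exact Nat.gcd_dvd_right _ _
    have hx0 : 0 < x := Nat.pos_of_ne_zero fun h0 => by
      have := hs i
      rw [hx, h0, mul_zero] at this
      omega
    have hxy : Nat.Coprime x y := by
      have h4 : Nat.gcd (d * x) (d * y) = d := by rw [← hx, ← hy]; exact hd.symm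
      rw [Nat.gcd_mul_left] at h4
      exact Nat.eq_of_mul_eq_mul_left hd0 (by rw [mul_one]; exact h4)
    have h5 : a * x = b * y := by
      apply Nat.eq_of_mul_eq_mul_left hd0
      calc d * (a * x) = a * (d * x) := by ring
        _ = b * (d * y) := by rw [← hx, ← hy]; exact hsab
        _ = d * (b * y) := by ring
    have h6 : a = y := by
      apply Nat.dvd_antisymm
      · exact hab.dvd_of_dvd_mul_left ⟨x, h5.symm⟩
      · exact hxy.symm.dvd_of_dvd_mul_right ⟨b, by rw [h5]; ring⟩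
    have h7 : b = x := by
      have hy0 : 0 < y := Nat.pos_of_ne_zero fun h0 => by
        have := hs j
        rw [hy, h0, mul_zero] at this
        omega
      rw [h6] at h5
      exact Nat.eq_of_mul_eq_mul_right hy0 (by rw [← h5]; ring)
    have h8 : s j / Nat.gcd (s i) (s j) = a := by
      rw [← hd, hy, h6]
      exact Nat.mul_div_cancel_left _ hd0
    have h9 : s i / Nat.gcd (s i) (s j) = b := by
      rw [← hd, hx, h7]
      exact Nat.mul_div_cancel_left _ hd0
    rw [h8, h9] at h3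
    exact good_one _ _ _ _ h3

end Pool.Agent.Results.MP_bf63dc_nt.EveryCase
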