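import Pool.Agent.helper72.FG.Fin2
import Pool.Agent.helper72.FG.Ex
import Pool.Agent.helper76.FG.All
import Pool.Agent.helper19.FG.E6

/-!
# The cases of Q1 with a given value of `c/(a - b)`: more than half, and almost all constants, in every long interval

`c` is called true for `(a, b)` if `(a, b, c)` satisfies the conditions of Q1 (`Admissible`) and `a p - b q = c` has infinitely many solutions in primes `p, q` (`TrueCase`).
`Near θ a b c`: there is `D ≥ 1` such that for every multiple `q ≥ 1` of `D` every long progression of step `q` which starts in the class of `c` modulo `D` contains at least the proportion `θ` of numbers which are true for `(a, b)`.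
A case `(a, b, c)`, `a ≠ b`, is the map `T(x) = (b x + c)/a` with the fixed point `x = c/(a - b)`; Q1 says that `T` maps infinitely many primes to primes; the iterate `T^n` is the case `(a^n, b^n, x (a^n - b^n))`. Nothing is assumed.

THEOREM. (0) Let `θ = 1/2 + 3/10^6`. For EVERY integer `h ≠ 0`, of ANY four different positive integers prime to `h` some two have a ratio `a/b` with `Near θ a b (h (a - b))`. Example `6, 8, 9, 12` (all ratios are of the form `(n + 1)/n`, helper38): for EVERY `c` prime to `6` one of the four equations `2 p - q = c'`, `3 p - 2 q = c'`,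
`4 p - 3 q = c'`, `9 p - 8 q = c'` is true for more than half of all `c'` in every long interval of every class near `c`; and almost every `c` prime to `6` (upper Banach density `0` excepted) is itself of one of these forms for infinitely many primes `p, q`.
Consecutive coefficients, every share: there is an absolute `A`, and for every `ε > 0` an absolute `K`, such that for EVERY `c` prime to `6` some equation `(n + 1) p - n q = c'`, `1 ≤ n ≤ K (1 + log |c|)^A`, is true for at least `1 - ε` of all `c'` in every long interval of every class near `c`.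
(1) For every `k ≥ 1` there is `C`, and for every `0 < ε ≤ 1` an ABSOLUTE `n₀`, such that for EVERY rational `x = u/v ≠ 0` (lowest terms) and every multiple `n ≥ 1` of `n₀` (every `n ≥ 1` if `x` is an integer) there is a set `E` of at most `C/ε^4` ratios with the property: of ANY `k` different positive integers such that all
their ratios `a/b` are not in `E` and give cases `(a, b, x (a - b))` of Q1 more than `k/4` have pairwise `Near (1 - ε) (a^n) (b^n) (x (a^n - b^n))`.
(2) There is `C` such that for every `0 < ε ≤ 1` and EVERY integer `h ≠ 0`: (a) all coprime `a ≠ b` prime to `h` with at most `C/ε^4` exceptions have `Near (1 - ε) (a^d) (b^d) (h (a^d - b^d))` for `d = 1`, `2` or `3`; (b) every finite set `V` of positive integers prime to `h` has at least `|V|^2/3 - C |V|/ε^4` pairs whose ratio `a/b` has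
`Near (1 - ε) a b (h (a - b))`; (c) for ALL coprime `a ≠ b` prime to `h` some `d ≤ C/ε^4`, and at least a third of all `d`, have `Near (1 - ε) (a^d) (b^d) (h (a^d - b^d))`.

PROOF of (1) (`Pool/Agent/helper76/FG/Spec.lean`, `Pool/Agent/helper76/FP/Spec.lean`). The input is the theorem on almost all tuples of linear forms (a sieve of Maynard and Tao for clusters of forms, `Pool/Agent/helper38/AT`): more than `1/4 + 1/500000` of the forms of almost every tuple in a product of large sets of forms are prime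
simultaneously for infinitely many `n` (a clique); two of them always give a true `c`. Let `N` bad tuples of `k` integers be given, without common ratios: every set of more than `k/4` indices contains a bad pair. For a bad pair there are arbitrarily long progressions, of steps divisible by any
given number, in the class of the constant, in which the proportion of the false `c` is at least `ε`. For every tuple take a tree of far translates, indexed by the paths with digits `0` or `e`, `e` a bad pair, such that the `c` belonging to the pairs which face each other at a level lie at places of nearly extremal density of the false `c`.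
All tuples are realised by permutations of ONE set of slopes `w` and constants `(u + t w)/v + o` (all these forms have the fixed point `u/v`), whose size depends only on `k` and `ε`; `t` is chosen such that the constants are prime to `K!` and to the slopes (`n₀ = K!`: then `T^n` is the identity modulo the primes `p ≤ K` which divide `v`).
The cliques give functions with average more than `1/4` and almost no false pairs. Star lemma: in every tree some pair of labels has a product of the mean values bounded from below. So it correlates with the difference of the local density and the indicator function of the false `c`. These differences are almost orthogonal for different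
ratios, and the functions span boundedly many dimensions up to a small error (spectral theorem): by Bessel's inequality `N ≤ C/ε^4`. A maximal family of such tuples gives the exceptional set.
PROOF of (0): the theorem on four linear forms (`Pool/Agent/helper19/FK`: tree of far translates of blocks of forms, Pollard's theorem) for the forms `s_i n + h`; the removal lemma for `K_4`; consecutive coefficients (`Pool/Agent/helper19/FG/E6.lean`): (1) for `k = 4`, `x = c`, exponent `1` and the integers `6 + L, 8 + L, 9 + L, 12 + L`, `12 ∣ L`, all whose ratios are of the form `(n + 1)/n`, with many `L ≤ K (1 + log |c|)^A` for which they are prime to `c` (Brun-Hooley sieve).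
PROOF of (2): (1) for `k = 4` and the integers `a^(H - x) b^x`; Turan's theorem.
-/

set_option autoImplicit false

namespace Pool.Agent.Results.MP_bf63dc_nt.FourRatios

open Finset

/-- The conditions of Q1: `a, b ≥ 1`, `c ≠ 0`, pairwise relatively prime, not all odd. -/
def Admissible (a b : ℕ) (c : ℤ) : Prop :=
  0 < a ∧ 0 < b ∧ c ≠ 0 ∧ Nat.Coprime a b ∧ IsCoprime (a : ℤ) c ∧ IsCoprime (b : ℤ) c ∧
    ¬ (Odd a ∧ Odd b ∧ Odd c)

/-- `c` is true for `(a, b)`: the conditions of Q1 hold and `a p - b q = c` has infinitely many solutions in primes `p, q`. -/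
def TrueCase (a b : ℕ) (c : ℤ) : Prop :=
  Admissible a b c ∧ {pq : ℕ × ℕ | pq.1.Prime ∧ pq.2.Prime ∧ (a : ℤ) * pq.1 - b * pq.2 = c}.Infinite

/-- There is `D ≥ 1` such that for every multiple `q ≥ 1` of `D` there is `M₀` such that for all `M ≥ M₀` and all `y ≡ c` modulo `D` at least `θ M` of the numbers `y, y + q, ..., y + (M - 1) q` are true for `(a, b)`. -/
def Near (θ : ℝ) (a b : ℕ) (c : ℤ) : Prop :=
  ∃ D : ℕ, 1 ≤ D ∧ ∀ q : ℕ, 1 ≤ q → D ∣ q → ∃ M₀ : ℕ, ∀ M : ℕ, M₀ ≤ M → ∀ y : ℤ, (D : ℤ) ∣ y - c →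
    θ * M ≤ ({t : ℕ | t < M ∧ TrueCase a b (y + q * t)}.ncard : ℝ)

/-- the ratio `a/b = t/s` in lowest terms, as the pair `(a, b)`: `a s = b t` -/
def red (s t : ℕ) : ℕ × ℕ := (t / Nat.gcd s t, s / Nat.gcd s t)

theorem hT : Pool.Agent.helper85.FC.TrueCase = TrueCase := by
  funext a b c
  unfold Pool.Agent.helper85.FC.TrueCase TrueCase Admissible
  simp only [and_assoc]

theorem hN : Pool.Agent.SK.Dens = Near := by
  classical
  funext θ a b c
  unfold Pool.Agent.SK.Dens Near
  have h1 : ∀ (q M : ℕ) (y : ℤ), ((Pool.Agent.HF.cz (Pool.Agent.HF.TC a b) y q M : ℕ) : ℝ) = ({t : ℕ | t < M ∧ TrueCase a b (y + q * t)}.ncard : ℝ) := by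
    intro q M y
    unfold Pool.Agent.HF.cz
    have e2 : {t : ℕ | t < M ∧ TrueCase a b (y + q * t)} = ((range M).filter (fun t : ℕ => Pool.Agent.HF.TC a b (y + q * (t : ℕ))) : Finset ℕ) := by
      ext t
      simp only [Set.mem_ofPred_eq, coe_filter, mem_range]
      unfold Pool.Agent.HF.TC
      rw [hT]
    rw [e2, Set.ncard_coe_finset]
  simp only [h1]

theorem result :
    -- more than half near `h (a - b)` for some ratio of any four integers
    (∀ h : ℤ, h ≠ 0 → ∀ s : Fin 4 → ℕ, (∀ i, 1 ≤ s i) → Function.Injective s → (∀ i, IsCoprime h (s i : ℤ)) →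
      ∃ i j, i < j ∧ Near (1 / 2 + 3 / 10 ^ 6) (red (s i) (s j)).1 (red (s i) (s j)).2 (h * (((red (s i) (s j)).1 : ℤ) - (red (s i) (s j)).2))) ∧
    -- the example `6, 8, 9, 12`
    (∀ c : ℤ, IsCoprime c 6 → Near (1 / 2 + 3 / 10 ^ 6) 2 1 c ∨ Near (1 / 2 + 3 / 10 ^ 6) 3 2 c ∨ Near (1 / 2 + 3 / 10 ^ 6) 4 3 c ∨ Near (1 / 2 + 3 / 10 ^ 6) 9 8 c) ∧
    (∀ ε : ℝ, 0 < ε → ∃ M₀ : ℕ, ∀ M : ℕ, M₀ ≤ M → ∀ u : ℤ,
      ({c : ℤ | c ∈ Ioc u (u + M) ∧ IsCoprime c 6 ∧ ¬ (TrueCase 2 1 c ∨ TrueCase 3 2 c ∨ TrueCase 4 3 c ∨ TrueCase 9 8 c)}.ncard : ℝ) ≤ ε * M) ∧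
    -- consecutive coefficients, almost all constants
    (∃ A : ℕ, ∀ ε : ℝ, 0 < ε → ∃ K : ℝ, ∀ c : ℤ, IsCoprime c 6 → ∃ n : ℕ, 1 ≤ n ∧ (n : ℝ) ≤ K * (1 + Real.log |(c : ℝ)|) ^ A ∧ Near (1 - ε) (n + 1) n c) ∧
    -- almost all `c'` near `x (a^n - b^n)`, `x = u/v`, for more than a quarter of any `k` integers
    (∀ k : ℕ, 1 ≤ k → ∃ C : ℝ, 0 < C ∧ ∀ ε : ℝ, 0 < ε → ε ≤ 1 → ∃ n₀ : ℕ, 1 ≤ n₀ ∧
      ∀ (u : ℤ) (v n : ℕ), u ≠ 0 → 1 ≤ v → 1 ≤ n → IsCoprime u (v : ℤ) → (v = 1 ∨ n₀ ∣ n) →
        ∃ E : Finset (ℕ × ℕ), (#E : ℝ) ≤ C / ε ^ 4 ∧ ∀ s : Fin k → ℕ, (∀ i, 1 ≤ s i) → Function.Injective s →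
          (∀ i j, i ≠ j → red (s i) (s j) ∉ E ∧ (v : ℤ) ∣ ((red (s i) (s j)).1 : ℤ) - (red (s i) (s j)).2 ∧
            Admissible (red (s i) (s j)).1 (red (s i) (s j)).2 (u * (((red (s i) (s j)).1 : ℤ) - (red (s i) (s j)).2) / v)) →
          ∃ S : Finset (Fin k), k < 4 * #S ∧ ∀ i ∈ S, ∀ j ∈ S, i ≠ j →
            Near (1 - ε) ((red (s i) (s j)).1 ^ n) ((red (s i) (s j)).2 ^ n) (u * (((red (s i) (s j)).1 : ℤ) ^ n - ((red (s i) (s j)).2 : ℤ) ^ n) / v)) ∧
    (∃ C : ℝ, 0 < C ∧ ∀ ε : ℝ, 0 < ε → ε ≤ 1 → ∀ h : ℤ, h ≠ 0 →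
      -- one of the first three powers, with at most `C / ε ^ 4` exceptions
      (∃ F : Finset (ℕ × ℕ), (#F : ℝ) ≤ C / ε ^ 4 ∧ ∀ a b : ℕ, 1 ≤ a → 1 ≤ b → Nat.Coprime a b → a ≠ b → IsCoprime h ((a * b : ℕ) : ℤ) → (a, b) ∉ F →
        ∃ d : ℕ, 1 ≤ d ∧ d ≤ 3 ∧ Near (1 - ε) (a ^ d) (b ^ d) (h * ((a : ℤ) ^ d - (b : ℤ) ^ d))) ∧
      -- a third of all ratios
      (∀ V : Finset ℕ, (∀ s ∈ V, 1 ≤ s ∧ IsCoprime h (s : ℤ)) → 1 / 3 * (#V : ℝ) ^ 2 - C / ε ^ 4 * #V ≤
        ({p | p ∈ V ×ˢ V ∧ Near (1 - ε) (red p.1 p.2).1 (red p.1 p.2).2 (h * (((red p.1 p.2).1 : ℤ) - (red p.1 p.2).2))}.ncard : ℝ)) ∧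
      -- a bounded exponent, and a third of all exponents, for every pair
      (∀ a b : ℕ, 1 ≤ a → 1 ≤ b → Nat.Coprime a b → a ≠ b → IsCoprime h ((a * b : ℕ) : ℤ) →
        (∃ d : ℕ, 1 ≤ d ∧ (d : ℝ) ≤ C / ε ^ 4 ∧ Near (1 - ε) (a ^ d) (b ^ d) (h * ((a : ℤ) ^ d - (b : ℤ) ^ d))) ∧
        ∀ δ : ℝ, 0 < δ → ∃ M₀ : ℕ, ∀ M : ℕ, M₀ ≤ M → ∀ x : ℕ, (1 / 3 - δ) * M ≤
          ({d : ℕ | d ∈ Ioc x (x + M) ∧ Near (1 - ε) (a ^ d) (b ^ d) (h * ((a : ℤ) ^ d - (b : ℤ) ^ d))}.ncard : ℝ))) := by
  classical
  have h0 := Pool.Agent.FG.Ex_four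
  have h1 := Pool.Agent.FG.Ex_half
  have h2 := Pool.Agent.FG.Ex_almost
  have h3 := Pool.Agent.FG.fgn Pool.Agent.FG.fgc
  have h4 := Pool.Agent.FG.fin Pool.Agent.FG.fgc
  have h6 := Pool.Agent.FG.E6 Pool.Agent.FG.fgc
  simp only [hN] at h0 h1 h3 h4 h6
  simp only [hT] at h2
  refine ⟨fun h _ s hs _ hc => h0 h s hs hc, h1, fun ε hε => ?_, h6, h3, ?_⟩
  · obtain ⟨M₀, h5⟩ := h2 ε hε
    refine ⟨M₀, fun M hM u => le_trans (le_of_eq ?_) (h5 M hM u)⟩
    rw [← Set.ncard_coe_finset]
    congr 2
    ext c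
    simp only [coe_filter, Set.mem_ofPred_eq]
  · obtain ⟨C, hC, h5⟩ := h4
    exact ⟨C, hC, fun ε hε hε1 => (h5 ε hε hε1).1⟩

end Pool.Agent.Results.MP_bf63dc_nt.FourRatios
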