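import Pool.Agent.helper19.HF.FinD
import Pool.Agent.helper78.HF.FINY
import Pool.Agent.helper38.AT.All
import Pool.Agent.helper76.DP.All2

/-!
# Either the differences of primes have only a power saving number of exceptions, or the proportion of the true `c` is more than a half for EVERY equation and tends to 1 as `(a, b)` runs through all pairs

`c` is true for `(a, b)` if `(a, b, c)` satisfies the conditions of Q1 (`Admissible a b c`) and `a p - b q = c` has infinitely many solutions in primes `p, q` (`TrueCase a b c`).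

THEOREM. At least one of (A), (B) is true.
(A) There is `m ≥ 1` with `PowerSaving m`: for some `K`, every interval of `N` integers contains at most `N^(1 - 1/K)` multiples `c ≠ 0` of `2 m` which are not infinitely often a difference `p - q` of two primes.
(B) Of those `c` which satisfy the conditions of Q1 for `(a, b)` at least the following proportion is true in EVERY long interval: `1/2 + 3/10^6` for EVERY pair of coprime `a, b ≥ 1` (also in every progression); and for every `ε > 0` the proportion `1 - ε` for all pairs of coprime `a, b ≥ 1` with at most `10^28/ε^2` exceptions.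

PROOF. The input is the theorem on almost all `k`-tuples of linear forms (a sieve of Maynard and Tao for clusters of forms, `Pool/Agent/helper38/AT`): more than `α k`, `α = 1/4 + 1/500000`, of the forms of almost every tuple in a product of large sets of forms are prime simultaneously for infinitely many `n` (a clique).
If (A) fails then by the theorem of Kovari, Sos and Turan for all `s, K` there are multiples `x_i, y_j` of `s` (`i, j < K`) such that no `x_i - y_j` is a true difference. Every sample point `(u, i, j)` gives two forms `s_0 n + (u + x_i)`, `s_0 n + (u + y_j)`, of which at most one is in the clique.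
FIRST PART OF (B). Suppose that some class modulo `D` has long windows of density `≤ 2 α - δ` of the true `c` for `(a, b)`. Let `γ ≤ 2 α - δ` be the infimum of the lower Banach densities of the true `c` along the progressions of steps divisible by `D` in this class, nearly attained. Pinning (increment of energy; Bessel's inequality) gives functions
`a_0, a_1` (slope `b`), `a_2, a_3` (slope `a`) with `a_0 + a_1 ≤ 1`, `a_2 + a_3 ≤ 1`, sum of the means `≥ 4 α - ε > 1`, such that almost all pairs of points of `a_i × a_j` (`i ≤ 1`, `j ≥ 2`) give a true `c`. The popular values of `a u - b v` have an almost period `p q` with a large prime `p` and bounded `q` (the method of Croot and Sisask),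
and by POLLARD's theorem modulo `p` their density is at least `mean(a_i) + mean(a_j)`; as all progressions near this place have density about `γ`, `mean(a_i) + mean(a_j) ≤ γ + e`. So the sum of the four means is at most `2 (2 α - δ + e) < 4 α - ε`: contradiction.
SECOND PART OF (B). Let `R` be a finite set of exceptional pairs. There are a modulus `Q_0` and, for every `r = (a, b)` in `R`, a place `V_r` near which the local densities of the false `c` along the progressions of a finer step are almost a function `d_r` of the class modulo `Q_0` of mean at least `ε/2` times that of the possible `c`. Take slopes `w_γ` and offsets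
`o_γ`, with permutations `g_r` such that `a w_(gγ) = b w_γ` and `a o_(gγ) - b o_γ = V_r` for almost all `γ`. The cliques give functions of mean `≤ 1/2` and average `> 1/4` in every cell (by a minimax argument) with almost no false `c`: so they correlate with (false minus `d_r`) for EVERY `r` in `R`. These functions are almost orthogonal for different pairs, and
the functions of the blocks are close to a space of bounded dimension. So `R` has at most `10^28/ε^2 - 1` elements (Bessel's inequality).
-/

set_option autoImplicit false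

namespace Pool.Agent.Results.MP_bf63dc_nt.HalfOrPowerSaving

open Finset

/-- The conditions of Q1: `a, b ≥ 1`, `c ≠ 0`, pairwise relatively prime, not all odd. -/
def Admissible (a b : ℕ) (c : ℤ) : Prop :=
  0 < a ∧ 0 < b ∧ c ≠ 0 ∧ Nat.Coprime a b ∧ IsCoprime (a : ℤ) c ∧ IsCoprime (b : ℤ) c ∧
    ¬ (Odd a ∧ Odd b ∧ Odd c)

/-- `c` is true for `(a, b)`: the conditions of Q1 hold and `a p - b q = c` has infinitely many solutions in primes. -/
def TrueCase (a b : ℕ) (c : ℤ) : Prop :=
  Admissible a b c ∧ {pq : ℕ × ℕ | pq.1.Prime ∧ pq.2.Prime ∧ (a : ℤ) * pq.1 - b * pq.2 = c}.Infinite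

/-- There is `K` such that every interval of `N` integers contains at most `N ^ (1 - 1 / K)` multiples `c ≠ 0` of `2 m` which are not infinitely often a difference of two primes. -/
def PowerSaving (m : ℕ) : Prop :=
  ∃ K : ℕ, 1 ≤ K ∧ ∀ (u : ℤ) (N : ℕ), ({c : ℤ | u < c ∧ c ≤ u + N ∧ c ≠ 0 ∧ ((2 * m : ℕ) : ℤ) ∣ c ∧ ¬ TrueCase 1 1 c}.ncard : ℝ) ≤ (N : ℝ) ^ (1 - 1 / (K : ℝ))

/-- For every `M ≥ M₀` and every `y`: of the `c` among `y, y + s, ..., y + (M - 1) s` which satisfy the conditions of Q1 at least the proportion `θ` is true for `(a, b)`. -/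
def Share (θ : ℝ) (a b s : ℕ) : Prop :=
  ∃ M₀ : ℕ, ∀ M : ℕ, M₀ ≤ M → ∀ y : ℤ,
    θ * ({t : ℕ | t < M ∧ Admissible a b (y + s * t)}.ncard : ℝ) ≤ ({t : ℕ | t < M ∧ TrueCase a b (y + s * t)}.ncard : ℝ)

theorem hT : Pool.Agent.helper85.FC.TrueCase = TrueCase := by
  funext a b c
  unfold Pool.Agent.helper85.FC.TrueCase TrueCase Admissible
  simp only [and_assoc]

theorem power (m K : ℕ) (hK : 1 ≤ K) (h2 : Pool.Agent.AL.SparseM m K 1) : PowerSaving m := by
  refine ⟨K, hK, fun u N => ?_⟩
  have h3 := h2 u N
  unfold Pool.Agent.AL.BadM at h3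
  rw [hT] at h3
  rw [Pool.Agent.AL.FIN_ncard (fun c => c ≠ 0 ∧ ((2 * m : ℕ) : ℤ) ∣ c ∧ ¬ TrueCase 1 1 c) u N]
  rw [one_mul] at h3
  refine le_trans (le_of_eq ?_) h3
  exact_mod_cast Pool.Agent.AL.FIN_card _ _ _ _ (fun c => Iff.rfl) _

theorem cardAd (a b s M : ℕ) (y : ℤ) [DecidablePred fun t : ℕ => Pool.Agent.IT.Ad a b (y + s * (t : ℕ))] :
    {t : ℕ | t < M ∧ Admissible a b (y + s * t)}.ncard = ((range M).filter (fun t : ℕ => Pool.Agent.IT.Ad a b (y + s * (t : ℕ)))).card := by
  have e1 : {t : ℕ | t < M ∧ Admissible a b (y + s * t)} = ((range M).filter (fun t : ℕ => Pool.Agent.IT.Ad a b (y + s * (t : ℕ))) : Finset ℕ) := by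
    ext t
    simp only [Set.mem_ofPred_eq, coe_filter, mem_range]
    exact Iff.rfl
  rw [e1, Set.ncard_coe_finset]

theorem cardTrue (a b s M : ℕ) (y : ℤ) [DecidablePred fun t : ℕ => Pool.Agent.HF.TC a b (y + s * (t : ℕ))] :
    {t : ℕ | t < M ∧ TrueCase a b (y + s * t)}.ncard = ((range M).filter (fun t : ℕ => Pool.Agent.HF.TC a b (y + s * (t : ℕ)))).card := by
  have e2 : {t : ℕ | t < M ∧ TrueCase a b (y + s * t)} = ((range M).filter (fun t : ℕ => Pool.Agent.HF.TC a b (y + s * (t : ℕ))) : Finset ℕ) := by
    ext t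
    simp only [Set.mem_ofPred_eq, coe_filter, mem_range]
    unfold Pool.Agent.HF.TC
    rw [hT]
  rw [e2, Set.ncard_coe_finset]

theorem share_of (ε : ℝ) (a b : ℕ) (h : Pool.Agent.DP.GoodD ε a b) : Share (1 - ε) a b 1 := by
  classical
  obtain ⟨L₀, h⟩ := h
  refine ⟨L₀, fun M hM y => ?_⟩
  have h1 := h M hM y
  rw [cardAd, cardTrue]
  have e3 : ∀ t : ℕ, y + ((1 : ℕ) : ℤ) * (t : ℕ) = y + (t : ℕ) := fun t => by push_cast; ring
  simp only [e3]
  have h2 : ((range M).filter (fun t : ℕ => Pool.Agent.HF.TC a b (y + (t : ℕ)))).card + ((range M).filter (fun t : ℕ => Pool.Agent.IT.Ad a b (y + (t : ℕ)) ∧ ¬ Pool.Agent.HF.TC a b (y + (t : ℕ)))).card =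
      ((range M).filter (fun t : ℕ => Pool.Agent.IT.Ad a b (y + (t : ℕ)))).card := by
    rw [← card_union_of_disjoint]
    · congr 1
      ext t
      simp only [mem_union, mem_filter]
      constructor
      · rintro (⟨h3, h4⟩ | ⟨h3, h4, h5⟩)
        · refine ⟨h3, ?_⟩
          unfold Pool.Agent.HF.TC at h4
          rw [hT] at h4
          exact h4.1
        · exact ⟨h3, h4⟩
      · rintro ⟨h3, h4⟩
        by_cases h5 : Pool.Agent.HF.TC a b (y + (t : ℕ))
        · exact Or.inl ⟨h3, h5⟩
        · exact Or.inr ⟨h3, h4, h5⟩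
    · rw [disjoint_left]
      intro t h3 h4
      exact (mem_filter.mp h4).2.2 (mem_filter.mp h3).2
  have h3 : (((range M).filter (fun t : ℕ => Pool.Agent.HF.TC a b (y + (t : ℕ)))).card : ℝ) + (((range M).filter (fun t : ℕ => Pool.Agent.IT.Ad a b (y + (t : ℕ)) ∧ ¬ Pool.Agent.HF.TC a b (y + (t : ℕ)))).card : ℝ) =
      (((range M).filter (fun t : ℕ => Pool.Agent.IT.Ad a b (y + (t : ℕ)))).card : ℝ) := by exact_mod_cast h2
  linarith

/-- **Either power saving for the differences of primes, or more than a half for every equation and almost all for almost every equation.** -/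
theorem result :
    (∃ m : ℕ, 1 ≤ m ∧ PowerSaving m) ∨
    ((∀ a b : ℕ, 1 ≤ a → 1 ≤ b → Nat.Coprime a b → ∀ s : ℕ, 1 ≤ s → Share (1 / 2 + 3 / 10 ^ 6) a b s) ∧
      ∀ ε : ℝ, 0 < ε → ∃ E : Finset (ℕ × ℕ), (E.card : ℝ) ≤ 10 ^ 28 / ε ^ 2 ∧
        ∀ a b : ℕ, 1 ≤ a → 1 ≤ b → Nat.Coprime a b → (a, b) ∉ E → Share (1 - ε) a b 1) := by
  classical
  rcases Pool.Agent.HF.half_almost_or_saving Pool.Agent.HF.FINY Pool.Agent.DP.finc with ⟨m, K, hm, hK, -, h2⟩ | ⟨h, hE⟩
  · exact Or.inl ⟨m, hm, power m K hK h2⟩
  · refine Or.inr ⟨fun a b ha hb hab s hs => ?_, fun ε hε => ?_⟩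
    · obtain ⟨M₀, h⟩ := h a b ha hb hab s hs
      refine ⟨M₀, fun M hM y => ?_⟩
      rw [cardAd, cardTrue]
      exact h M hM y
    · obtain ⟨E, hE1, hE2⟩ := hE ε hε
      exact ⟨E, hE1, fun a b ha hb hab hn => share_of ε a b (hE2 a b ha hb hab hn)⟩

end Pool.Agent.Results.MP_bf63dc_nt.HalfOrPowerSaving
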