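import Pool.Agent.helper38.AT.All
import Pool.Agent.helper11.TX.All3
import Pool.Agent.helper11.MK.Main
import Pool.Agent.helper72.MM.O3

/-!
# A third of all cases of Q1, from a theorem on almost all tuples of linear forms

A case `(a, b, c)` of Q1 is true if `a p - b q = c` has infinitely many solutions in primes `p, q`.

THEOREM. (1) One quarter of all cases `(a, b, c)` of Q1 are true (logarithmic density in `a`, `b`, any interval of `c` which is long in terms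
of `a`, `b`), and a third of them, `1/3 - ε`, if every case is counted with its singular series. (2) In every finite set `V` of linear forms
`a n + b`, `b` prime to `6 a`, at least `|V|² / 3 - C |V|^(2 - δ)` ordered pairs of forms give a true case. (3) For EVERY case `T(x) = (b x + c)/a`
at least `(1/3 - ε) M` of any `M ≥ M₀(T, ε)` consecutive `m` have `T^m` true, that is `a^m p - b^m q = (a^(m-1) + a^(m-2) b + ... + b^(m-1)) c` for infinitely many pairs of primes (`a = b = 1`: `p - q = m c`);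
for EVERY rational number `r > 0`, `r ≠ 1`, as many have `r^m = (p + 1)/(q + 1)` for infinitely many pairs of primes, and the same for `(p - 1)/(q - 1)` (the cases `c = b - a` and `c = a - b`, `r = b/a`).
(4) All this follows from: for every `k` there are `C, δ > 0` such that for all finite sets `F_1, ..., F_k` of at least `L` linear forms `s n + h`,
`s ≥ 1`, all but `C |F_1| ... |F_k| L^(-δ)` of the admissible tuples in `F_1 × ... × F_k` have more than `(1/4 + 1/500000) k` prime values for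
infinitely many `n`.

PROOF. Rows and complete proofs in `Pool/Agent/helper38/AT/Spec.lean`, `Pool/Agent/helper10/QT/SpecX.lean`. In `k` clusters of linear
forms more than `(1/4 + e) k`, `e = 1/500000`, contain primes simultaneously: a theorem of the kind of Maynard and Tao, with Rosser's sieve
and a small gain for the pairs, as in the work of Merikoski (`Pool.Agent.helper17.MK`). The forms in a box of admissible tuples in one
residue class modulo the small primes are admissible together: the box theorem, every large box of admissible tuples contains one with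
more than `(1/4 + e) k` primes. By the theorem of Kovari, Sos, Turan and Erdos a set of tuples without a large box is small by a power.
(2) is (4) for `k = 4` and the inequality of Moon and Moser; (3) the same for the forms `T^m n` over a common denominator (`Pool/Agent/helper72/MM`: the density of the pairs of an extremal family of exponents, admissibility modulo 3); (1) is (2) for boxes of forms, with the weights of the
pairs worked out.
-/

set_option autoImplicit false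

namespace Pool.Agent.Results.MP_bf63dc_nt.ThirdOfAllCases

open Finset

/-- The value at `n` of the linear form `s n + h`, `f = (s, h)` (`0` if it is negative). -/
def ev (f : ℕ × ℤ) (n : ℕ) : ℕ := ((f.1 : ℤ) * n + f.2).toNat

/-- The linear forms `f i` are admissible: no prime divides the product of their values at all `n`. -/
def Adm {k : ℕ} (f : Fin k → ℕ × ℤ) : Prop :=
  ∀ p : ℕ, p.Prime → ∃ n : ℕ, ∀ i, ¬ (p : ℤ) ∣ ((f i).1 : ℤ) * n + (f i).2

/-- For infinitely many `n` more than `(1/4 + 1/500000) k` of the `k` forms have a prime value at `n`. -/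
def Many {k : ℕ} (f : Fin k → ℕ × ℤ) : Prop :=
  ∀ N : ℕ, ∃ n ≥ N, (1 / 4 + 1 / 500000 : ℝ) * k < #{i : Fin k | (ev (f i) n).Prime}

/-- The conditions of Q1 on `a, b, c`. -/
def Admissible (a b : ℕ) (c : ℤ) : Prop :=
  0 < a ∧ 0 < b ∧ c ≠ 0 ∧ Nat.Coprime a b ∧ IsCoprime (a : ℤ) c ∧ IsCoprime (b : ℤ) c ∧
    ¬ (Odd a ∧ Odd b ∧ Odd c)

/-- `(a, b, c)` satisfies the conditions of Q1 and `a p - b q = c` has infinitely many solutions in
primes `p, q`. -/
def TrueCase (a b : ℕ) (c : ℤ) : Prop :=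
  Admissible a b c ∧ {pq : ℕ × ℕ | pq.1.Prime ∧ pq.2.Prime ∧ (a : ℤ) * pq.1 - b * pq.2 = c}.Infinite

/-- The iterate `T^m` of `T x = (b x + c) / a` is a true case of Q1: `a^m p - b^m q = (a^(m-1) + a^(m-2) b + ... + b^(m-1)) c`. -/
def TrueIterate (a b : ℕ) (c : ℤ) (m : ℕ) : Prop :=
  TrueCase (a ^ m) (b ^ m) ((∑ i ∈ range m, (a : ℤ) ^ i * (b : ℤ) ^ (m - 1 - i)) * c)

/-- The pair of forms `f = (s, h)`, `g = (t, h')` gives a true case of Q1: with `d = gcd(s, t)` the equation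
`(t/d) p - (s/d) q = (t h - s h')/d` (satisfied by `p = s n + h`, `q = t n + h'`). -/
def Pair (f g : ℕ × ℤ) : Prop :=
  TrueCase (g.1 / Nat.gcd f.1 g.1) (f.1 / Nat.gcd f.1 g.1) (((g.1 : ℤ) * f.2 - f.1 * g.2) / Nat.gcd f.1 g.1)

/-- The singular series of `a p - b q = c` up to a constant factor: the product of `(l - 1)/(l - 2)` over the primes `l ≠ 2` dividing
`a b c`. -/
noncomputable def SS (a b : ℕ) (c : ℤ) : ℝ :=
  ∏ l ∈ (a * b * c.natAbs).primeFactors with l ≠ 2, ((l : ℝ) - 1) / ((l : ℝ) - 2)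

/-- The sum over `a, b ≤ N` of `1/(a b)` times the mean value `1/b` times the sum of `G a b c` over the `c` with
`b u < c ≤ b (u + M)` and `P a b c`. -/
noncomputable def LogSum (G : ℕ → ℕ → ℤ → ℝ) (P : ℕ → ℕ → ℤ → Prop) (N M : ℕ) (u : ℤ) : ℝ :=
  ∑ a ∈ Icc 1 N, ∑ b ∈ Icc 1 N, 1 / ((a : ℝ) * (b : ℝ) ^ 2) *
    ∑ c ∈ Ioc ((b : ℤ) * u) ((b : ℤ) * (u + M)), Set.indicator {c | P a b c} (G a b) c

theorem hT : Pool.Agent.helper85.FC.TrueCase = TrueCase := by
  funext a b c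
  unfold Pool.Agent.helper85.FC.TrueCase TrueCase Admissible
  simp only [and_assoc]

theorem hP : Pool.Agent.AT.Pair = Pair := by
  funext f g
  unfold Pool.Agent.AT.Pair Pair
  rw [hT]

theorem hcard {α : Type} (s : Finset α) (P Q : α → Prop) (inst : DecidablePred Q) (h : ∀ x, P x ↔ Q x) :
    (({x | x ∈ s ∧ P x}.ncard : ℕ) : ℝ) = ((#(@Finset.filter α Q inst s) : ℕ) : ℝ) := by
  have h1 : {x | x ∈ s ∧ P x} = ((@Finset.filter α Q inst s : Finset α) : Set α) := by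
    ext x
    simp [h]
  rw [h1, Set.ncard_coe_finset]

theorem adm_shift (a b : ℕ) (ha : 0 < a) (hb : 0 < b) (hab : Nat.Coprime a b) (hne : (b : ℤ) - a ≠ 0) (s : ℤ) (hs : s = 1 ∨ s = -1) :
    Admissible a b (s * ((b : ℤ) - a)) := by
  have h1 : IsCoprime (a : ℤ) (b : ℤ) := Nat.isCoprime_iff_coprime.2 hab
  have h2 : IsCoprime (a : ℤ) ((b : ℤ) - a) := by
    obtain ⟨x, y, h⟩ := h1
    exact ⟨x + y, y, by linear_combination h⟩
  have h3 : IsCoprime (b : ℤ) ((b : ℤ) - a) := by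
    obtain ⟨x, y, h⟩ := h1
    exact ⟨x + y, -x, by linear_combination h⟩
  have key : ∀ z : ℤ, IsCoprime z ((b : ℤ) - a) → IsCoprime z (s * ((b : ℤ) - a)) := by
    intro z hz
    rcases hs with rfl | rfl
    · rwa [one_mul]
    · rw [neg_one_mul, IsCoprime.neg_right_iff]
      exact hz
  refine ⟨ha, hb, ?_, hab, key _ h2, key _ h3, ?_⟩
  · rcases hs with rfl | rfl
    · rwa [one_mul]
    · rw [neg_one_mul, neg_ne_zero]
      exact hne
  · rintro ⟨⟨x, hx⟩, ⟨y, hy⟩, ⟨z, hz⟩⟩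
    rcases hs with rfl | rfl <;> omega

theorem shift (r : ℚ) (a b : ℕ) (hab : r = (b : ℚ) / a) (ha : 0 < a) (s : ℤ) (hs : s = 1 ∨ s = -1) (m : ℕ)
    (h : TrueIterate a b (s * ((b : ℤ) - a)) m) :
    {pq : ℕ × ℕ | pq.1.Prime ∧ pq.2.Prime ∧ r ^ m = ((pq.1 : ℚ) + s) / ((pq.2 : ℚ) + s)}.Infinite := by
  refine h.2.mono ?_
  rintro ⟨p, q⟩ ⟨hp, hq, he⟩
  refine ⟨hp, hq, ?_⟩
  dsimp only at he hp hq ⊢
  have h1 := geom_sum₂_mul (a : ℤ) (b : ℤ) m
  have h2 : (∑ i ∈ range m, (a : ℤ) ^ i * (b : ℤ) ^ (m - 1 - i)) * (s * ((b : ℤ) - a)) = s * ((b : ℤ) ^ m - (a : ℤ) ^ m) := by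
    linear_combination -s * h1
  rw [h2] at he
  push_cast at he
  have h3 : (a : ℤ) ^ m * ((p : ℤ) + s) = (b : ℤ) ^ m * ((q : ℤ) + s) := by linear_combination he
  have h4 : (a : ℚ) ^ m * ((p : ℚ) + s) = (b : ℚ) ^ m * ((q : ℚ) + s) := by exact_mod_cast h3
  have ha' : (a : ℚ) ^ m ≠ 0 := by positivity
  have hq' : (q : ℚ) + s ≠ 0 := by
    have h5 : (q : ℤ) + s ≠ 0 := by
      have h6 := hq.two_le
      rcases hs with rfl | rfl <;> omega
    exact_mod_cast h5
  rw [hab, div_pow, div_eq_div_iff ha' hq']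
  linear_combination -h4

theorem rat_case (r : ℚ) (hr : 0 < r) (hr1 : r ≠ 1) (s : ℤ) (hs : s = 1 ∨ s = -1) :
    ∃ (a b : ℕ) (c : ℤ), Admissible a b c ∧ ∀ m, TrueIterate a b c m → {pq : ℕ × ℕ | pq.1.Prime ∧ pq.2.Prime ∧ r ^ m = ((pq.1 : ℚ) + s) / ((pq.2 : ℚ) + s)}.Infinite := by
  obtain ⟨b, hb⟩ : ∃ b : ℕ, (b : ℤ) = r.num := ⟨r.num.toNat, Int.toNat_of_nonneg (Rat.num_pos.2 hr).le⟩
  have hb0 : 0 < b := by
    have h1 := Rat.num_pos.2 hr
    omega
  have hrab : r = (b : ℚ) / (r.den : ℕ) := by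
    have h1 := (Rat.num_div_den r).symm
    rw [← hb, Int.cast_natCast] at h1
    exact h1
  have hcop : Nat.Coprime r.den b := by
    have h1 := r.reduced
    rw [← hb, Int.natAbs_natCast] at h1
    exact h1.symm
  have hne : (b : ℤ) - (r.den : ℕ) ≠ 0 := by
    intro h0
    apply hr1
    rw [hrab]
    have h1 : (b : ℤ) = (r.den : ℕ) := by linarith
    have h2 : b = r.den := by exact_mod_cast h1
    rw [h2]
    exact div_self (by exact_mod_cast r.den_nz)
  exact ⟨r.den, b, s * ((b : ℤ) - (r.den : ℕ)), adm_shift r.den b r.den_pos hb0 hcop hne s hs, fun m h => shift r r.den b hrab r.den_pos s hs m h⟩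

theorem iter_third (a b : ℕ) (c : ℤ) (hc : Admissible a b c) (ε : ℝ) (hε : 0 < ε) : ∃ M₀ : ℕ, ∀ M : ℕ, M₀ ≤ M → ∀ u : ℕ,
    (1 / 3 - ε) * M ≤ ({m : ℕ | m ∈ Ioc u (u + M) ∧ TrueIterate a b c m}.ncard : ℝ) := by
  classical
  obtain ⟨M₀, H⟩ := Pool.Agent.MM.orb_dens (Pool.Agent.AT.Q_all 4 (by norm_num)) a b c hc ε hε
  refine ⟨M₀, fun M hM u => (H M hM u).trans ?_⟩
  rw [← Set.ncard_coe_finset]
  refine Nat.cast_le.2 (Set.ncard_le_ncard ?_ ?_)
  · intro m hm
    rw [mem_coe, mem_filter] at hm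
    refine ⟨hm.1, ?_⟩
    have h6 := hm.2
    unfold Pool.Agent.IT.It at h6
    rw [hT] at h6
    unfold Pool.Agent.IT.br at h6
    rw [mul_comm] at h6
    push_cast at h6
    exact h6
  · exact (finite_toSet (Ioc u (u + M))).subset fun m hm => mem_coe.2 hm.1

/-- **A third of all cases of Q1.** -/
theorem result :
    -- one quarter of all cases, one third with the weights `SS`
    (∀ ε : ℝ, 0 < ε → ∃ N₀ : ℕ, ∀ N : ℕ, N₀ ≤ N → ∃ M₀ : ℕ, ∀ M : ℕ, M₀ ≤ M → ∀ u : ℤ,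
      1 / 4 * LogSum (fun _ _ _ => 1) Admissible N M u ≤ LogSum (fun _ _ _ => 1) TrueCase N M u ∧
      (|u| ≤ M → (1 / 3 - ε) * LogSum SS Admissible N M u ≤ LogSum SS TrueCase N M u)) ∧
    -- a third of all pairs of forms
    (∃ C δ : ℝ, 0 < C ∧ 0 < δ ∧ ∀ V : Finset (ℕ × ℤ),
      (∀ f ∈ V, 0 < f.1 ∧ IsCoprime (f.1 : ℤ) f.2 ∧ IsCoprime (6 : ℤ) f.2) →
      1 / 3 * (#V : ℝ) ^ 2 - C * (#V : ℝ) ^ (2 - δ) ≤
        ({p | p ∈ V ×ˢ V ∧ Pair p.1 p.2}.ncard : ℝ)) ∧
    -- a third of all iterates of every case, and of all powers of every rational number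
    (∀ (a b : ℕ) (c : ℤ), Admissible a b c → ∀ ε : ℝ, 0 < ε → ∃ M₀ : ℕ, ∀ M : ℕ, M₀ ≤ M → ∀ u : ℕ,
      (1 / 3 - ε) * M ≤ ({m : ℕ | m ∈ Ioc u (u + M) ∧ TrueIterate a b c m}.ncard : ℝ)) ∧
    (∀ r : ℚ, 0 < r → r ≠ 1 → ∀ s : ℤ, s = 1 ∨ s = -1 → ∀ ε : ℝ, 0 < ε → ∃ M₀ : ℕ, ∀ M : ℕ, M₀ ≤ M → ∀ u : ℕ,
      (1 / 3 - ε) * M ≤ ({m : ℕ | m ∈ Ioc u (u + M) ∧
        {pq : ℕ × ℕ | pq.1.Prime ∧ pq.2.Prime ∧ r ^ m = ((pq.1 : ℚ) + s) / ((pq.2 : ℚ) + s)}.Infinite}.ncard : ℝ)) ∧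
    -- almost all tuples of forms
    (∀ k : ℕ, 1 ≤ k → ∃ C δ : ℝ, 0 < C ∧ 0 < δ ∧ ∀ (F : Fin k → Finset (ℕ × ℤ)) (L : ℕ), 1 ≤ L →
      (∀ i, L ≤ #(F i)) → (∀ i, ∀ f ∈ F i, 0 < f.1) →
      ({f | f ∈ Fintype.piFinset F ∧ (Adm f ∧ ¬ Many f)}.ncard : ℝ) ≤
        C * (∏ i, (#(F i) : ℝ)) * (L : ℝ) ^ (-δ)) := by
  refine ⟨?_, ?_, iter_third, ?_, ?_⟩
  · intro ε hε
    obtain ⟨N₀, H⟩ := Pool.Agent.helper11.TX.FN_of Pool.Agent.helper11.MK.cm4 ε hε
    refine ⟨N₀, fun N hN => ?_⟩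
    obtain ⟨M₀, H1⟩ := H N hN
    refine ⟨M₀, fun M hM u => ?_⟩
    have h2 : ∀ (G : ℕ → ℕ → ℤ → ℝ) (P : ℕ → ℕ → ℤ → Prop),
        Pool.Agent.helper11.TX.Sm P G N M u = LogSum G P N M u := by
      intro G P
      unfold Pool.Agent.helper11.TX.Sm LogSum
      refine sum_congr rfl fun a _ => sum_congr rfl fun b _ => ?_
      rw [sum_filter]
      refine congrArg (fun x => 1 / ((a : ℝ) * (b : ℝ) ^ 2) * x) (sum_congr rfl fun c _ => ?_)
      by_cases hc : P a b c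
      · rw [if_pos hc, Set.indicator_of_mem (show c ∈ {c | P a b c} from hc)]
      · rw [if_neg hc, Set.indicator_of_notMem (show c ∉ {c | P a b c} from hc)]
    constructor
    · have h1 := (H1 M hM).2 u
      rw [h2, h2, hT] at h1
      exact h1
    · intro hu
      have h1 := (H1 M hM).1 u hu
      rw [h2, h2, hT] at h1
      exact h1
  · obtain ⟨C, δ, hC, hδ, H⟩ := Pool.Agent.AT.THP_all Pool.Agent.AT.QPc_all
    refine ⟨C, δ, hC, hδ, fun V hV => ?_⟩
    have h1 := H V hV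
    rw [hP] at h1
    rwa [hcard _ _ _ _ fun _ => Iff.rfl]
  · intro r hr hr1 s hs ε hε
    obtain ⟨a, b, c, hc, h1⟩ := rat_case r hr hr1 s hs
    obtain ⟨M₀, H⟩ := iter_third a b c hc ε hε
    refine ⟨M₀, fun M hM u => (H M hM u).trans (Nat.cast_le.2 (Set.ncard_le_ncard ?_ ?_))⟩
    · rintro m ⟨hm, hm2⟩
      exact ⟨hm, h1 m hm2⟩
    · exact (finite_toSet (Ioc u (u + M))).subset fun m hm => mem_coe.2 hm.1
  · intro k hk
    obtain ⟨C, δ, hC, hδ, -, H⟩ := Pool.Agent.AT.Q_all k hk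
    refine ⟨C, δ, hC, hδ, fun F L hL hF hpos => ?_⟩
    rw [hcard _ _ _ _ fun f => (Iff.rfl : (Adm f ∧ ¬ Many f) ↔ Pool.Agent.AT.Adm f ∧ ¬ Pool.Agent.AT.Many f)]
    exact H F L hL hF hpos

end Pool.Agent.Results.MP_bf63dc_nt.ThirdOfAllCases
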